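import Pool.Agent.Helper86.LN.Fin

/-!
The form with the finite part only: no exponential term.
-/

open Height AdmissibleAbsValues Filter Topology

namespace Pool.Agent.Helper86.LO

open WeierstrassCurve WeierstrassCurve.Affine WeierstrassCurve.Affine.Point NumberField
open Pool.Agent.Helper86.LH Pool.Agent.Helper86.LK Pool.Agent.Helper86.LM
open Pool.Agent.Helper86.LN

/-- Choice of `M`, last step, with the error term divided by `M²`. -/
theorem opt_coreF {δ T E H G : ℝ} (hδ0 : 0 < δ) (hδ1 : δ ≤ 1) (hT : 0 ≤ T)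
    (hE : 0 ≤ E) (hG : 0 ≤ G) {M : ℕ} (hM1 : 14 / δ ≤ M)
    (hM2 : (M : ℝ) ≤ 15 / δ)
    (a2 : 11 / 30 * (T + G) - 2 * M * E ≤ 144 * H * (M : ℝ) ^ 3 / 3) :
    δ ^ 3 * (T + G) / 450000 - δ ^ 2 * E / 4704 ≤ H := by
  have hMpos : (0 : ℝ) < M := lt_of_lt_of_le (by positivity) hM1
  have a3 : (M : ℝ) ^ 3 ≤ 3375 / δ ^ 3 := by
    have := pow_le_pow_left₀ hMpos.le hM2 3
    rw [div_pow] at this
    norm_num at this
    exact this
  have a5 : δ ^ 3 * (M : ℝ) ^ 3 ≤ 3375 := by
    have := mul_le_mul_of_nonneg_left a3 (by positivity : 0 ≤ δ ^ 3)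
    rwa [mul_div_cancel₀ _ (by positivity)] at this
  have hM3 : (0 : ℝ) < (M : ℝ) ^ 3 := by positivity
  have hδM : 14 ≤ δ * M := by
    have := mul_le_mul_of_nonneg_left hM1 hδ0.le
    rwa [mul_div_cancel₀ _ hδ0.ne'] at this
  have hδM2 : 196 ≤ δ ^ 2 * (M : ℝ) ^ 2 := by
    have := pow_le_pow_left₀ (by norm_num) hδM 2
    rw [mul_pow] at this
    linarith
  have b1 : δ ^ 3 * (T + G) / 450000 * (M : ℝ) ^ 3 ≤ 3 / 400 * (T + G) := by
    have := mul_le_mul_of_nonneg_right a5 (add_nonneg hT hG)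
    nlinarith
  have b2 : M * E / 24 ≤ δ ^ 2 * E / 4704 * (M : ℝ) ^ 3 := by
    have c0 : 0 ≤ M * E := mul_nonneg hMpos.le hE
    have := mul_le_mul_of_nonneg_right hδM2 c0
    nlinarith
  have b3 : (δ ^ 3 * (T + G) / 450000 - δ ^ 2 * E / 4704) * (M : ℝ) ^ 3 ≤ H * (M : ℝ) ^ 3 := by
    rw [sub_mul]
    have c1 : 0 ≤ T + G := add_nonneg hT hG
    linarith
  exact le_of_mul_le_mul_right b3 hM3

variable {K : Type*} [Field K] [NumberField K] [DecidableEq K]
  (W : WeierstrassCurve.Affine K) [W.IsElliptic]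

/-- The inequality for the multiples of `12 P`, finite places only. -/
theorem mult_fin {S : Finset (NV K)} (hS : Big W S) (P : W.Point)
    (hP : ∀ n : ℕ, 0 < n → n • P ≠ 0) {H : W.Point → ℝ}
    (hH : ∀ P : W.Point, Tendsto (fun k : ℕ => logHeight ((2 ^ k • P).xRep) / 4 ^ k)
        atTop (𝓝 (H P))) (hHm : ∀ (P : W.Point) (m : ℕ), H (m • P) = m ^ 2 * H P)
    {m : ℕ} (hm1 : 0 < m) :
    ∑ v ∈ S, TT W (Sum.inr v) * B2 (m * (12 * TH W P (Sum.inr v))) +
      1 / 6 * addH W - (65 * totalWeight K + 1 / 12 * hinf W) ≤ (m : ℝ) ^ 2 * (144 * H P) := by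
  classical
  have hΔ : W.Δ ≠ 0 := W.isUnit_Δ.ne_zero
  have hm12 : 0 < 12 * m := by omega
  have h6 : (6 : K) ≠ 0 := by norm_num
  have e12 : (12 * m) • P = 12 • (m • P) := by rw [mul_comm, mul_nsmul]
  have hne : (12 * m) • P ≠ 0 := hP _ hm12
  have h1 := aheight_lower2 h6 arch_two_three hS ((12 * m) • P) hne
    (hH ((12 * m) • P)) (fun v => ga W v.val) (fun v hv => by
      have hx1 : ((12 * m) • P).xRep 1 = 1 := by
        generalize (12 * m) • P = Q at hne
        match Q, hne with
        | Point.some x y hxy, _ => rfl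
        | 0, hP => exact absurd rfl hP
      unfold ga
      split_ifs with hv6
      · obtain ⟨p, hp, d⟩ := fin_disc (⟨v.val, v.2⟩ : FinitePlace K) hv6
        have := gain d hp rfl (m • P) (by rw [← e12]; exact hne)
        rw [← e12] at this
        exact this
      · rw [mul_zero, add_zero, hx1]
        exact loc_base v.val _)
  rw [hHm P (12 * m)] at h1
  have hB : ∀ t : ℝ, ((12 * m : ℕ) : ℝ) * t = m * (12 * t) := by
    intro t; push_cast; ring
  have h2 : asum K (fun v => -(1 / 12) * Real.posLog (v W.j)) ≤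
      asum K (fun v => if IsAM W v then
        nj W v * (1 / 6 - tv W v ((12 * m) • P) * (1 - tv W v ((12 * m) • P))) else 0) := by
    apply asum_le
    intro v _
    split_ifs with hmv
    · have hb := tv_bounds hmv.mul hΔ ((12 * m) • P)
      have hn := nj_pos hmv.mul
      rw [← nj_eq_posLog hmv.mul]
      rw [nj] at hn ⊢
      have : tv W v ((12 * m) • P) * (1 - tv W v ((12 * m) • P)) ≤ 1 / 4 := by
        nlinarith [sq_nonneg (tv W v ((12 * m) • P) - 1 / 2)]
      nlinarith
    · have := Real.posLog_nonneg (x := v W.j)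
      linarith
  rw [asum_mul] at h2
  have h3 : ∑ v ∈ S, TT W (Sum.inr v) * B2 (m * (12 * TH W P (Sum.inr v))) =
      ∑ v ∈ S, (if IsMul W v.val then nj W v.val *
        (1 / 6 - tv W v.val ((12 * m) • P) * (1 - tv W v.val ((12 * m) • P))) else 0) := by
    apply Finset.sum_congr rfl
    intro v _
    unfold TT TH
    dsimp only
    split_ifs with hmv
    · rw [tv_mul (isNonarchimedean v.val v.2) hmv P (12 * m), hB, dn_B2]
    · ring
  have h7 : ((12 * m : ℕ) : ℝ) ^ 2 * H P = (m : ℝ) ^ 2 * (144 * H P) := by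
    push_cast; ring
  rw [h7, ← addH_eq W hS] at h1
  rw [h3]
  unfold hinf
  linarith

open Classical in
/-- The contribution of the other finite places. -/
noncomputable def deepF (B : Finset (NV K)) (N : ℕ) : ℝ :=
  ∑ᶠ v : NV K, (if v ∈ B ∨ SmallPole W N v.val then 0 else Real.posLog (v.val W.j))

theorem relF {δ ε : ℝ} (hδ0 : 0 < δ) (hδ1 : δ ≤ 1) (P : W.Point)
    (hP : ∀ n : ℕ, 0 < n → n • P ≠ 0) {H : W.Point → ℝ}
    (hH : ∀ P : W.Point, Tendsto (fun k : ℕ => logHeight ((2 ^ k • P).xRep) / 4 ^ k)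
        atTop (𝓝 (H P))) (hHm : ∀ (P : W.Point) (m : ℕ), H (m • P) = m ^ 2 * H P)
    (hH0 : ∀ P : W.Point, 0 ≤ H P) {s N : ℕ} (hε : ε = δ / (2 * (s + N ^ 2 + N + 1)))
    (B : Finset (NV K)) (hB : B.card ≤ s)
    (hw : deepF W B N ≤ (1 - δ) * dmin W) :
    ε ^ 3 * dmin W / 450000 - ε ^ 2 * (totalWeight K + hinf W) / 50 ≤ H P := by
  classical
  have hΔ : W.Δ ≠ 0 := W.isUnit_Δ.ne_zero
  have h6 : (6 : K) ≠ 0 := by norm_num
  obtain ⟨S, hS⟩ := exists_big (W := W) hΔ h6
  have hd := dmin_le W hS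
  have hs0 : (0 : ℝ) ≤ s := Nat.cast_nonneg _
  have hN0 : (0 : ℝ) ≤ N := Nat.cast_nonneg _
  have hN2 : (0 : ℝ) ≤ (N : ℝ) ^ 2 := sq_nonneg _
  have hden : (0 : ℝ) < 2 * (s + N ^ 2 + N + 1) := by linarith
  have hε0 : 0 < ε := by rw [hε]; positivity
  have hεδ : 2 * ε ≤ δ := by
    rw [hε, ← mul_div_assoc, div_le_iff₀ hden]
    nlinarith
  have hε1 : ε ≤ 1 := by linarith
  have ht : (0 : ℝ) ≤ totalWeight K := Nat.cast_nonneg _
  have hinf0 : 0 ≤ hinf W := by
    have := asum_le (K := K) (f := fun _ => (0 : ℝ)) (g := fun v => Real.posLog (v W.j))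
      (fun v _ => Real.posLog_nonneg)
    rw [asum_const, mul_zero] at this
    exact this
  obtain ⟨M, hM, hM1, hM2⟩ := exists_M hε0 hε1
  set T := ∑ v ∈ S, TT W (Sum.inr v) with hTdef
  have hTf : hfin W = T := by
    rw [hfin_eq W hS]
    rfl
  set E := 65 * (totalWeight K : ℝ) + 1 / 12 * hinf W with hE
  set G := addH W with hG
  have hG0 : 0 ≤ G := by
    rw [hG, addH_eq W hS]
    exact Finset.sum_nonneg fun v _ => ga_nonneg W v.val
  have hE0 : 0 ≤ E := by positivity
  have hT0 : 0 ≤ T := Finset.sum_nonneg fun y _ => TT_nonneg W _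
  have hH144 : 0 ≤ 144 * H P := by have := hH0 P; linarith
  have key : ∀ I ⊆ S, ∀ ψ : ℝ, (∀ v ∈ I, 12 * TH W P (Sum.inr v) = ψ) →
      M / (2 * Real.pi ^ 2) * ∑ v ∈ I, TT W (Sum.inr v) - 1 / 3 * T + (M - 2) * (1 / 6 * G) -
        2 * M * E ≤ 144 * H P * (M : ℝ) ^ 3 / 3 := fun I hI ψ hψ =>
    weighted2 S (fun v => TT W (Sum.inr v)) (fun v => 12 * TH W P (Sum.inr v))
      (fun y _ => TT_nonneg W _) I hI ψ hψ (144 * H P) E (1 / 6 * G)
      hH144 hE0 (by positivity) M hM (fun m hm =>
        mult_fin W hS P hP hH hHm (Finset.mem_Icc.mp hm).1)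
  have hM14 : (14 : ℝ) ≤ M := by
    refine le_trans ?_ hM1
    rw [le_div_iff₀ hε0]
    linarith
  have hMε : 14 ≤ M * ε := by
    have := mul_le_mul_of_nonneg_right hM1 hε0.le
    rwa [div_mul_cancel₀ _ hε0.ne'] at this
  have fin : 11 / 30 * (T + G) - 2 * M * (E + 4 * totalWeight K) ≤
      144 * H P * (M : ℝ) ^ 3 / 3 := by
    have a1' : 11 / 30 * G ≤ (M - 2) * (1 / 6 * G) := by nlinarith
    have hMt : 0 ≤ M * (totalWeight K : ℝ) := by positivity
    by_cases h1 : δ / 2 * T ≤ T - deepF W B N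
    · -- a set of places with the same coordinate
      set U := S.filter (fun v => IsMul W v.val ∧ (v ∈ B ∨ SmallPole W N v.val)) with hU
      have a2 : T - deepF W B N = ∑ v ∈ U, TT W (Sum.inr v) := by
        have b1 : deepF W B N = ∑ v ∈ S,
            (if v ∈ B ∨ SmallPole W N v.val then 0 else TT W (Sum.inr v)) := by
          unfold deepF
          rw [finsum_eq_sum_of_support_subset (s := S)]
          · apply Finset.sum_congr rfl
            intro v _
            unfold TT
            dsimp only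
            by_cases hm : IsMul W v.val
            · rw [if_pos hm, ← nj_eq_posLog hm, nj]
            · rw [if_neg hm, posLog_of_not hm]
          · intro v hv
            by_contra hc
            apply hv
            dsimp only
            rw [posLog_of_not (hS.not_mul (fun h => hc (Finset.mem_coe.mpr h))), ite_self]
        rw [b1, hTdef, ← Finset.sum_sub_distrib, hU, Finset.sum_filter]
        apply Finset.sum_congr rfl
        intro v _
        by_cases hm : IsMul W v.val
        · by_cases hc : v ∈ B ∨ SmallPole W N v.val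
          · rw [if_pos hc, if_pos ⟨hm, hc⟩, sub_zero]
          · rw [if_neg hc, if_neg (fun h => hc h.2), sub_self]
        · have e0 : TT W (Sum.inr v) = 0 := by
            unfold TT
            dsimp only
            rw [if_neg hm]
          rw [e0, ite_self, sub_self, if_neg (fun h => hm h.1)]
      rw [a2] at h1
      set Z := VV N ∪ (S.filter (fun v => v ∈ B)).image (fun v => 12 * TH W P (Sum.inr v)) with hZ
      have hZc : Z.card ≤ s + 1 + N * (N + 1) := by
        have c1 := Finset.card_union_le (VV N)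
          ((S.filter (fun v => v ∈ B)).image (fun v => 12 * TH W P (Sum.inr v)))
        have c2 := VV_card N
        have c3 : ((S.filter (fun v => v ∈ B)).image
            (fun v => 12 * TH W P (Sum.inr v))).card ≤ (S.filter (fun v => v ∈ B)).card :=
          Finset.card_image_le
        have c4 : (S.filter (fun v => v ∈ B)).card ≤ B.card :=
          Finset.card_le_card (fun v hv => (Finset.mem_filter.mp hv).2)
        rw [← hZ] at c1
        omega
      obtain ⟨I, hIU, ψ, hψ, hI⟩ := pigeon_share U (fun v => TT W (Sum.inr v))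
        (fun v => 12 * TH W P (Sum.inr v)) (fun x _ => TT_nonneg W _) Z (by
          intro v hv
          rw [hZ, Finset.mem_union]
          rw [hU, Finset.mem_filter] at hv
          obtain ⟨hvS, hm, hv | hv⟩ := hv
          · right
            rw [Finset.mem_image]
            exact ⟨v, Finset.mem_filter.mpr ⟨hvS, hv⟩, rfl⟩
          · left
            exact tv_mem W hm hv P) h1 hZc (by omega)
      have e1 : δ / 2 * T / ((s + 1 + N * (N + 1) : ℕ) : ℝ) = ε * T := by
        rw [hε]
        push_cast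
        field_simp
        ring
      rw [e1] at hI
      have k1 := key I (hIU.trans (Finset.filter_subset _ _)) ψ hψ
      have hpi : Real.pi ^ 2 < 9.87 := by
        have h1 := Real.pi_lt_d4
        have h2 := Real.pi_pos
        nlinarith
      have hpi0 : 0 < Real.pi ^ 2 := by positivity
      have a1 : 0.7 * T ≤ M / (2 * Real.pi ^ 2) * ∑ v ∈ I, TT W (Sum.inr v) := by
        have b1 : M / (2 * Real.pi ^ 2) * (ε * T) ≤
            M / (2 * Real.pi ^ 2) * ∑ v ∈ I, TT W (Sum.inr v) :=
          mul_le_mul_of_nonneg_left hI (by positivity)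
        have b3 : 0.7 ≤ M * ε / (2 * Real.pi ^ 2) := by
          rw [le_div_iff₀ (by positivity)]
          nlinarith
        have b4 : M / (2 * Real.pi ^ 2) * (ε * T) = M * ε / (2 * Real.pi ^ 2) * T := by ring
        rw [b4] at b1
        have b5 := mul_le_mul_of_nonneg_right b3 hT0
        linarith
      norm_num at a1
      linarith
    · -- the additive part
      rw [not_le] at h1
      have k0 := key ∅ (Finset.empty_subset _) 0 (fun v hv => absurd hv (Finset.notMem_empty v))
      rw [Finset.sum_empty, mul_zero, zero_sub] at k0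
      rw [hTf] at hd
      have ha : 0 ≤ dmin W - T := by
        rw [← hTf]
        have := hfin_le_dmin W
        linarith
      have h2 : δ / 2 * T - 44 * totalWeight K ≤ G := by
        have b1 : 0 ≤ δ * (dmin W - T) := mul_nonneg hδ0.le ha
        have b2 : δ * dmin W = δ * T + δ * (dmin W - T) := by ring
        linarith
      have h3 : ε * T - 44 * totalWeight K ≤ G := by
        have := mul_le_mul_of_nonneg_right hεδ hT0
        linarith
      have h4 : (M - 4.2) / 6 * (ε * T - 44 * totalWeight K) ≤ (M - 4.2) / 6 * G :=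
        mul_le_mul_of_nonneg_left h3 (by linarith)
      have h5 : 14 * T ≤ M * ε * T := mul_le_mul_of_nonneg_right hMε hT0
      have h6 : 4.2 * (ε * T) ≤ 0.3 * (M * ε * T) := by
        have b1 : 0 ≤ ε * T := mul_nonneg hε0.le hT0
        nlinarith
      norm_num at h4 h6
      linarith
  have k := opt_coreF hε0 hε1 hT0 (by positivity) hG0 hM1 hM2 fin
  rw [hTf] at hd
  have e3 : 0 < ε ^ 3 := by positivity
  have e2 : 0 < ε ^ 2 := by positivity
  have e23 : ε ^ 3 ≤ ε ^ 2 := by
    calc ε ^ 3 = ε ^ 2 * ε := by ring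
      _ ≤ ε ^ 2 * 1 := mul_le_mul_of_nonneg_left hε1 e2.le
      _ = ε ^ 2 := mul_one _
  have l1 := mul_le_mul_of_nonneg_left hd e3.le
  have l2 := mul_le_mul_of_nonneg_right e23 ht
  have l3 : 0 ≤ ε ^ 2 * (totalWeight K : ℝ) := by positivity
  have l4 : 0 ≤ ε ^ 2 * hinf W := mul_nonneg e2.le hinf0
  rw [hE] at k
  have l5 : ε ^ 2 * (65 * (totalWeight K : ℝ) + 1 / 12 * hinf W + 4 * totalWeight K) =
      69 * (ε ^ 2 * totalWeight K) + 1 / 12 * (ε ^ 2 * hinf W) := by ring
  rw [l5] at k
  have l6 : ε ^ 3 * (T + G + 44 * (totalWeight K : ℝ)) =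
      ε ^ 3 * (T + G) + 44 * (ε ^ 3 * totalWeight K) := by ring
  rw [l6] at l1
  rw [mul_add]
  linarith

end Pool.Agent.Helper86.LO
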